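import Pool.Agent.Helper970.SH.Main4

namespace Pool.Agent.Results.MP_50ef00_gt.InfinitelyManySimpleTypes

open H970SH

/-- There is an infinite family of compact 2-complexes (standard complexes of finite
presentations), any two of which are homotopy equivalent, and no two distinct members of which are
simple-homotopy equivalent. -/
theorem result : ∃ K : ℕ → Pres, (∀ i j, HomotopyEquivalent (K i) (K j)) ∧
    ∀ i j, i ≠ j → ¬ SimpleHomotopyEquivalent (K i) (K j) := by
  obtain ⟨f, hf⟩ := family
  exact ⟨fun n => fam (f n), fun i j => fam_equiv (f i) (f j) hkey, hf⟩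

end Pool.Agent.Results.MP_50ef00_gt.InfinitelyManySimpleTypes
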